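import Pool.Agent.H570R2.ZamAsymp

/-!
# The zero-information Arthur-Merlin complexity of INDEX is subpolynomial

`INDEX_n` is the function with `INDEX_n(x, y) = x_y` for `x ∈ {0,1}^n` and `y ∈ {1, ..., n}`. Its
zero-information Arthur-Merlin complexity is at most `2 ^ (54 √(log n · log log n))`, so it is at
most `n ^ ε` for large `n` and every `ε > 0`; the conjecture that it is linear in `n` is false.

`AMProtocol`, `AMProtocol.IsZAM` and `ZAM` are defined in `Pool.Agent.H570R2.ZamDefs`.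
-/

set_option autoImplicit false

namespace Pool.Agent.Results.MP_63af43_lc.IndexSubpolynomial

open Filter Topology Pool.Agent.H570R2

/-- The function `INDEX_n : {0,1}^n × [n] → {0,1}`, `INDEX_n(x, y) = x_y`. -/
def INDEX (n : ℕ) (x : Fin n → Bool) (y : Fin n) : Bool := x y

theorem index_le (n : ℕ) (hn : 4 ≤ n) : ZAM (INDEX n) ≤
    ((⌊(2 : ℝ) ^ (54 * Real.sqrt (Real.logb 2 n * Real.logb 2 (Real.logb 2 n)))⌋₊ : ℕ) : ℕ∞) :=
  ZAM_le_of_card_le (INDEX n) n hn (by simp)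

theorem index_le_rpow (ε : ℝ) (hε : 0 < ε) :
    ∀ᶠ n : ℕ in atTop, ZAM (INDEX n) ≤ ((⌊(n : ℝ) ^ ε⌋₊ : ℕ) : ℕ∞) := by
  have hlog : Tendsto (fun n : ℕ => Real.logb 2 (n : ℝ)) atTop atTop :=
    (Real.tendsto_logb_atTop (by norm_num)).comp tendsto_natCast_atTop_atTop
  filter_upwards [hlog.eventually (eventually_sqrt_le 54 ε (by norm_num) hε),
    eventually_ge_atTop 4] with n hn hn4
  refine (index_le n hn4).trans ?_
  rw [Nat.cast_le]
  apply Nat.floor_le_floor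
  have hn0 : (0 : ℝ) < n := by
    have : (4 : ℝ) ≤ n := by exact_mod_cast hn4
    linarith
  calc (2 : ℝ) ^ (54 * Real.sqrt (Real.logb 2 n * Real.logb 2 (Real.logb 2 n)))
      ≤ (2 : ℝ) ^ (ε * Real.logb 2 n) :=
        Real.rpow_le_rpow_of_exponent_le (by norm_num) hn
    _ = (n : ℝ) ^ ε := by
        rw [mul_comm, Real.rpow_mul (by norm_num), Real.rpow_logb (by norm_num) (by norm_num) hn0]

/-- (1) `ZAM(INDEX_n) ≤ 2 ^ (54 √(log₂ n · log₂ log₂ n))` for every `n ≥ 4`.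
(2) For every `ε > 0`, `ZAM(INDEX_n) ≤ n ^ ε` for all large `n`.
(3) The conjecture `ZAM(INDEX_n) = Θ(n)` is false: `ZAM(INDEX_n) / n → 0`. -/
theorem result :
    (∀ n : ℕ, 4 ≤ n → ZAM (INDEX n) ≤
      ((⌊(2 : ℝ) ^ (54 * Real.sqrt (Real.logb 2 n * Real.logb 2 (Real.logb 2 n)))⌋₊ : ℕ) : ℕ∞)) ∧
    (∀ ε : ℝ, 0 < ε → ∀ᶠ n : ℕ in atTop, ZAM (INDEX n) ≤ ((⌊(n : ℝ) ^ ε⌋₊ : ℕ) : ℕ∞)) ∧
    Tendsto (fun n : ℕ => ((ZAM (INDEX n) : ℕ∞) : ENNReal) / (n : ENNReal)) atTop (𝓝 0) := by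
  refine ⟨index_le, index_le_rpow, ?_⟩
  have h1 : Tendsto (fun n : ℕ => ENNReal.ofReal ((n : ℝ) ^ (-(1 / 2) : ℝ))) atTop (𝓝 0) := by
    rw [← ENNReal.ofReal_zero]
    refine (ENNReal.continuous_ofReal.tendsto 0).comp ?_
    exact (tendsto_rpow_neg_atTop (by norm_num)).comp tendsto_natCast_atTop_atTop
  refine tendsto_of_tendsto_of_tendsto_of_le_of_le' tendsto_const_nhds h1
    (Eventually.of_forall fun n => zero_le) ?_
  filter_upwards [index_le_rpow (1 / 2) (by norm_num), eventually_ge_atTop 4] with n hn hn4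
  have hn0 : (0 : ℝ) < n := by
    have : (4 : ℝ) ≤ n := by exact_mod_cast hn4
    linarith
  have h2 : ((ZAM (INDEX n) : ℕ∞) : ENNReal) ≤ ENNReal.ofReal ((n : ℝ) ^ (1 / 2 : ℝ)) := by
    refine (ENat.toENNReal_le.2 hn).trans ?_
    rw [ENat.toENNReal_coe, ← ENNReal.ofReal_natCast]
    exact ENNReal.ofReal_le_ofReal (Nat.floor_le (by positivity))
  calc ((ZAM (INDEX n) : ℕ∞) : ENNReal) / (n : ENNReal)
      ≤ ENNReal.ofReal ((n : ℝ) ^ (1 / 2 : ℝ)) / (n : ENNReal) := by gcongr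
    _ = ENNReal.ofReal ((n : ℝ) ^ (-(1 / 2) : ℝ)) := by
        rw [← ENNReal.ofReal_natCast, ← ENNReal.ofReal_div_of_pos hn0]
        congr 1
        rw [div_eq_iff hn0.ne']
        nth_rewrite 3 [← Real.rpow_one (n : ℝ)]
        rw [← Real.rpow_add hn0]
        norm_num

end Pool.Agent.Results.MP_63af43_lc.IndexSubpolynomial
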